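import Pool.Agent.N600.L3.Stm
import Pool.Agent.N693.G3.PRDTRI

/-!
# Crossed homomorphisms on two products, with noise of the form `χ m` (project L3, task TRI2)

An adaptation of the proof in `Pool.Agent.N693.G3.PRDTRI`.
-/

set_option autoImplicit false

namespace Pool.Agent.N79.L3

open Pool.Agent.N600.G3 Pool.Agent.N600.L3 Pool.Agent.N693.G3

universe u

theorem t_tri2 : S_TRI2.{u} := by
  intro M _ F _ χ b h K
  induction K with
  | zero =>
    intro d k
    exact k.elim0
  | succ K ih =>
    intro d k
    refine Fin.cases ?_ (fun j => ?_) k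
    · intro hd
      refine ⟨fun _ => 0, fun _ => 1, fun x x' _ => ⟨rfl, rfl⟩, fun x => ⟨1, (map_one χ).symm⟩,
        fun x => ?_⟩
      rw [AA_succ, h, crossed_AA_zero h _ (fun j => hd j.succ (Fin.succ_pos j))]
      simp only [mul_zero, add_zero, Units.val_one, one_mul, zero_add]
      split_ifs
      · rfl
      · exact crossed_one h
    · intro hd
      obtain ⟨g, σ, h1, hσ, h2⟩ := ih (fun i => d i.succ) j
        (fun i hi => hd i.succ (Fin.succ_lt_succ_iff.2 hi))
      refine ⟨fun x => b (if x 0 then d 0 else 1) +
          (χ (if x 0 then d 0 else 1) : F) * g (fun i => x i.succ),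
        fun x => χ (if x 0 then d 0 else 1) * σ (fun i => x i.succ), fun x x' hx => ?_,
        fun x => ?_, fun x => ?_⟩
      · have h0 : x 0 = x' 0 := hx 0 (Fin.succ_pos j)
        have h3 := h1 (fun i => x i.succ) (fun i => x' i.succ)
          (fun i hi => hx i.succ (Fin.succ_lt_succ_iff.2 hi))
        simp only [h0, h3.1, h3.2, and_self]
      · obtain ⟨m, hm⟩ := hσ (fun i => x i.succ)
        refine ⟨(if x 0 then d 0 else 1) * m, ?_⟩
        rw [map_mul, ← hm]
      · rw [AA_succ, h, h2]
        simp only [Units.val_mul]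
        ring

end Pool.Agent.N79.L3
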